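import Pool.Agent.Helper52.PN.Main

/-!
The residues of `π(k n)` modulo `n`: if `log K` is large compared with `n ^ 2`, then every residue
class modulo `n` contains `π(k n)` for a positive proportion of the `k ≤ K`, and if `log K` is large
compared with `n`, then this holds for most classes, with a proportion of the expected order `1 / n`.

Proof.  The value `v` is attained by `π(k n)` once for each multiple of `n` between the primes number
`v` and `v + 1`.  An upper bound sieve for prime pairs, averaged over the distance, shows that few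
`v` have a short gap between these two primes, while every class modulo `n` contains at least a
constant times `K / log K` values.
-/

set_option autoImplicit false

namespace Pool.Agent.Results.MP_d9c88f_nt.EveryClass

open Pool.Agent.Helper52.PN (hits)

theorem ncard_eq (n K r : ℕ) :
    {k : ℕ | 1 ≤ k ∧ k ≤ K ∧ Nat.primeCounting (k * n) ≡ r [MOD n]}.ncard =
      (hits n K r).card := by
  rw [← Set.ncard_coe_finset]
  congr 1
  ext k
  rw [Finset.mem_coe, Pool.Agent.Helper52.PN.hits, Finset.mem_filter, Finset.mem_Icc]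
  exact and_assoc.symm

theorem ncard_eq' (n K : ℕ) (x : ℝ) : {r : ℕ | r < n ∧
      (({k : ℕ | 1 ≤ k ∧ k ≤ K ∧ Nat.primeCounting (k * n) ≡ r [MOD n]}.ncard : ℕ) : ℝ) <
        x}.ncard = ((Finset.range n).filter fun r => ((hits n K r).card : ℝ) < x).card := by
  rw [← Set.ncard_coe_finset]
  congr 1
  ext r
  rw [Finset.mem_coe, Finset.mem_filter, Finset.mem_range, ← ncard_eq n K r]
  rfl

/-- There is `C > 0` with the following two properties. (1) For all `n ≥ 1`, `K ≥ 2` and real
`μ ≥ C n / log K`, all but at most `μ n` of the residue classes `r` modulo `n` have the property that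
`π(k n) ≡ r` modulo `n` for at least `μ K / (C n)` of the integers `k` from `1` to `K`. (2) If
`log K ≥ C n ^ 2`, then for every residue class `r` modulo `n` this holds for at least `K / (C n ^ 2)`
of the integers `k` from `1` to `K`. -/
theorem result : ∃ C : ℝ, 0 < C ∧
    (∀ (n K : ℕ) (μ : ℝ), 1 ≤ n → 2 ≤ K → C * n ≤ μ * Real.log K →
      (({r : ℕ | r < n ∧
        (({k : ℕ | 1 ≤ k ∧ k ≤ K ∧ Nat.primeCounting (k * n) ≡ r [MOD n]}.ncard : ℕ) : ℝ) <
          μ * K / (C * n)}.ncard : ℕ) : ℝ) ≤ μ * n) ∧
    (∀ n K r : ℕ, 1 ≤ n → C * n ^ 2 ≤ Real.log K → K / (C * n ^ 2) ≤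
      (({k : ℕ | 1 ≤ k ∧ k ≤ K ∧ Nat.primeCounting (k * n) ≡ r [MOD n]}.ncard : ℕ) : ℝ)) := by
  obtain ⟨C, hC, h⟩ := Pool.Agent.Helper52.PN.main
  refine ⟨2 * C, by positivity, fun n K μ hn hK hμ => ?_, fun n K r hn hlog => ?_⟩
  · have hn1 : (1 : ℝ) ≤ n := by exact_mod_cast hn
    have hK2 : (2 : ℝ) ≤ K := by exact_mod_cast hK
    have hL : 0 < Real.log K := Real.log_pos (by linarith)
    have hμ0 : 0 ≤ μ := by
      by_contra hcon
      have h1 : μ * Real.log K ≤ 0 := mul_nonpos_of_nonpos_of_nonneg (not_le.1 hcon).le hL.le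
      nlinarith
    rw [ncard_eq']
    have h1 := h n K μ hn hK (by nlinarith)
    refine le_trans ?_ h1
    have hsub : ((Finset.range n).filter fun r => ((hits n K r).card : ℝ) <
        μ * K / (2 * C * n)) ⊆ (Finset.range n).filter fun r => ((hits n K r).card : ℝ) <
        μ * K / (C * n) := by
      intro r hr
      rw [Finset.mem_filter] at hr ⊢
      refine ⟨hr.1, lt_of_lt_of_le hr.2 ?_⟩
      apply div_le_div_of_nonneg_left (by positivity) (by positivity)
      nlinarith
    exact_mod_cast Finset.card_le_card hsub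
  · have hn1 : (1 : ℝ) ≤ n := by exact_mod_cast hn
    have hn0 : (0 : ℝ) < n := by linarith
    have hL : 0 < Real.log K := lt_of_lt_of_le (by positivity) hlog
    have hK2 : 2 ≤ K := by
      by_contra hcon
      have h1 : K = 0 ∨ K = 1 := by omega
      rcases h1 with h1 | h1 <;> rw [h1] at hL <;> simp at hL
    have h1 := h n K (1 / (2 * n)) hn hK2 (by
      rw [one_div, inv_mul_eq_div, le_div_iff₀ (by positivity)]
      nlinarith)
    have h2 : (1 / (2 * n) : ℝ) * n = 1 / 2 := by field_simp
    rw [h2] at h1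
    have h3 : ((Finset.range n).filter fun r =>
        ((hits n K r).card : ℝ) < (1 / (2 * n)) * K / (C * n)).card = 0 := by
      have h5 : ((Finset.range n).filter fun r =>
        ((hits n K r).card : ℝ) < (1 / (2 * n)) * K / (C * n)).card < 1 := by
        have h6 := lt_of_le_of_lt h1 (by norm_num : (1 / 2 : ℝ) < 1)
        exact_mod_cast h6
      omega
    rw [Finset.card_eq_zero, Finset.filter_eq_empty_iff] at h3
    have h6 := h3 (Finset.mem_range.2 (Nat.mod_lt r (by omega : 0 < n)))
    rw [not_lt, ← ncard_eq n K (r % n)] at h6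
    have h7 : {k : ℕ | 1 ≤ k ∧ k ≤ K ∧ Nat.primeCounting (k * n) ≡ r % n [MOD n]} =
        {k : ℕ | 1 ≤ k ∧ k ≤ K ∧ Nat.primeCounting (k * n) ≡ r [MOD n]} := by
      ext k
      refine and_congr_right fun _ => and_congr_right fun _ => ?_
      exact ⟨fun h => h.trans (Nat.mod_modEq r n), fun h => h.trans (Nat.mod_modEq r n).symm⟩
    rw [h7] at h6
    have h8 : (1 / (2 * n) : ℝ) * K / (C * n) = K / (2 * C * n ^ 2) := by
      field_simp
    rw [h8] at h6
    exact h6

end Pool.Agent.Results.MP_d9c88f_nt.EveryClass
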